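import Pool.Agent.H23.FacMain

set_option autoImplicit false

namespace Pool.Agent.Results.MP_a2b00d_an.NoFactorization

open Filter Topology Pool.Agent.H23.Fac

/-- `A = I₀(F_ω)`: absolutely summable complex functions on the free group on countably many
generators with sum zero. -/
def A : Set (FreeGroup ℕ → ℂ) := {f | Summable (fun s => ‖f s‖) ∧ ∑' s, f s = 0}

/-- the convolution product `(f * g)(s) = ∑_t f(t) g(t⁻¹ s)` -/
noncomputable def prod (f g : FreeGroup ℕ → ℂ) : FreeGroup ℕ → ℂ := fun s => ∑' t, f t * g (t⁻¹ * s)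

/-- the norm of `ℓ¹(F_ω)` -/
noncomputable def norm1 (f : FreeGroup ℕ → ℂ) : ℝ := ∑' s, ‖f s‖

/-- `c₀(A)`: sequences in `A` whose norms tend to zero. -/
def c0 : Set (ℕ → FreeGroup ℕ → ℂ) :=
  {x | (∀ n, x n ∈ A) ∧ Tendsto (fun n => norm1 (x n)) atTop (𝓝 0)}

/-- `A · c₀(A) ≠ c₀(A)` -/
theorem result : ∃ x ∈ c0, ¬ ∃ a ∈ A, ∃ y ∈ c0, ∀ n, x n = prod a (y n) := by
  have hdl : ∀ g : FreeGroup ℕ, HasSum (fun s => dl g s) 1 := by
    intro g
    have h1 : (1 : ℂ) = dl g g := by simp [dl]
    rw [h1]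
    apply hasSum_single
    intro b hb
    simp [dl, hb]
  have hdn : ∀ g : FreeGroup ℕ, Summable (fun s => ‖dl g s‖) := by
    intro g
    apply summable_of_ne_finset_zero (s := {g})
    intro b hb
    simp only [Finset.mem_singleton] at hb
    simp [dl, hb]
  have hmem : ∀ g : FreeGroup ℕ, (fun s => dl 1 s - dl g s) ∈ A := by
    intro g
    refine ⟨?_, ?_⟩
    · exact Summable.of_nonneg_of_le (fun _ => norm_nonneg _) (fun s => norm_sub_le _ _)
        ((hdn 1).add (hdn g))
    · have := ((hdl 1).sub (hdl g)).tsum_eq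
      simpa using this
  have h0 : (0 : FreeGroup ℕ → ℂ) ∈ A := by
    refine ⟨?_, ?_⟩
    · simpa using (summable_zero : Summable (fun _ : FreeGroup ℕ => (0 : ℝ)))
    · simp
  refine ⟨fun n => if n = 0 then (fun s => dl 1 s - dl (FreeGroup.of 0) s)
    else if n = 1 then (fun s => dl 1 s - dl (FreeGroup.of 1) s) else 0, ⟨?_, ?_⟩, ?_⟩
  · intro n
    simp only
    split_ifs
    · exact hmem _
    · exact hmem _
    · exact h0
  · apply tendsto_const_nhds.congr'
    filter_upwards [eventually_ge_atTop 2] with n hn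
    rw [if_neg (by omega), if_neg (by omega)]
    simp [norm1]
  · rintro ⟨a, ha, y, hy, h⟩
    have e1 := h 0
    have e2 := h 1
    simp only [if_true] at e1
    simp only [one_ne_zero, if_false, if_true] at e2
    exact no_common_factor a (y 0) (y 1) ha.1 ha.2 (hy.1 0).1 (hy.1 1).1 e1.symm e2.symm

end Pool.Agent.Results.MP_a2b00d_an.NoFactorization
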